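import Mathlib

set_option autoImplicit false

namespace Pool.Agent.Results.MP_1867d3_co.Extreme

open Finset

/-- vertex degree -/
noncomputable def deg {V : Type} (G : SimpleGraph V) (v : V) : ℕ := (G.neighborSet v).ncard

/-- conjugate degree sequence; coordinate `k : Fin n` is `d*_{k+1}` -/
noncomputable def dstar {n : ℕ} (G : SimpleGraph (Fin n)) : Fin n → ℝ :=
  fun k => #{j | k.val + 1 ≤ deg G j}

/-- the vector with `r` ones followed by zeros -/
def ones (n r : ℕ) : Fin n → ℝ := fun k => if k.val + 1 ≤ r then 1 else 0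

theorem inv {α : Type} [Fintype α] [DecidableEq α] (σ : α → α) (hσ : Function.Involutive σ) (a : ℕ)
    (h : 2 * a ≤ #{x | σ x ≠ x} + 1) : ∃ S : Finset α, #S = 2 * a ∧ ∀ x ∈ S, σ x ∈ S ∧ σ x ≠ x := by
  induction a with
  | zero => exact ⟨∅, rfl, by simp⟩
  | succ a ih =>
    obtain ⟨S, h1, h2⟩ := ih (by omega)
    obtain ⟨x, hx, hS⟩ := exists_mem_notMem_of_card_lt_card (s := S) (t := {x | σ x ≠ x}) (by omega)
    have hx := (mem_filter.1 hx).2
    refine ⟨insert x (insert (σ x) S), ?_, ?_⟩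
    · rw [card_insert_of_notMem (by simp [hS, hx.symm]),
        card_insert_of_notMem fun z => hS (hσ x ▸ (h2 _ z).1)]
      omega
    · simp only [mem_insert]
      rintro y (rfl | rfl | hy)
      · simp [hx]
      · simp [hσ x, hx.symm]
      · simp [h2 y hy]

theorem negS (N a : ℕ) [NeZero N] (h : 2 * a < N) :
    ∃ S : Finset (ZMod N), #S = 2 * a ∧ ∀ x ∈ S, -x ∈ S ∧ -x ≠ x := by
  refine inv _ neg_involutive a ?_
  have a1 := card_filter_add_card_filter_not (s := univ) fun x : ZMod N => -x = x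
  have a2 : #{x : ZMod N | -x = x} ≤ 2 :=
    (card_le_card (t := {0, ((N / 2 : ℕ) : ZMod N)}) fun x hx => by
      rcases (ZMod.neg_eq_self_iff x).1 (mem_filter.1 hx).2 with z | z
      · simp [z]
      · simp [show N / 2 = x.val by omega]).trans card_le_two
  rw [card_univ, ZMod.card] at a1
  simp only [ne_eq]
  omega

theorem tr {V : Type} [Fintype V] {n : ℕ} (h : Fintype.card V = n) (H : SimpleGraph V) :
    ∃ G : SimpleGraph (Fin n), ∃ e : Fin n ≃ V, ∀ i, deg G i = deg H (e i) := by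
  refine ⟨H.comap (Fintype.equivFinOfCardEq h).symm, (Fintype.equivFinOfCardEq h).symm, fun i => ?_⟩
  exact Set.ncard_preimage_of_injective_subset_range (Fintype.equivFinOfCardEq h).symm.injective
    (s := H.neighborSet _) (by simp)

theorem half (m : ℕ) [NeZero m] : -(m : ZMod (2 * m)) = m ∧ (m : ZMod (2 * m)) ≠ 0 := by
  have := NeZero.pos m
  refine ⟨neg_eq_of_add_eq_zero_left ?_, fun h => ?_⟩
  · rw [← Nat.cast_add, ← two_mul, ZMod.natCast_self]
  · have := Nat.le_of_dvd this ((ZMod.natCast_eq_zero_iff _ _).1 h); omega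

theorem ex1 (n r : ℕ) (h : r < n) (e : Even (n * r)) : ∃ G : SimpleGraph (Fin n), ∀ v, deg G v = r := by
  have : NeZero n := ⟨by omega⟩
  obtain ⟨S, h1, h2, h3⟩ : ∃ S : Finset (ZMod n), #S = r ∧ 0 ∉ S ∧ ∀ x ∈ S, -x ∈ S := by
    obtain ⟨S, h1, h2⟩ := negS n (r / 2) (by omega)
    have z : 0 ∉ S := fun z => (h2 0 z).2 neg_zero
    rcases Nat.even_or_odd r with ⟨a, rfl⟩ | o
    · exact ⟨S, by omega, z, fun x hx => (h2 x hx).1⟩
    · obtain ⟨m, rfl⟩ := ((Nat.even_mul.1 e).resolve_right (Nat.not_even_iff_odd.2 o)).two_dvd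
      have : NeZero m := ⟨by omega⟩
      refine ⟨insert (m : ZMod (2 * m)) S, ?_, by simp [z, (half m).2.symm], fun x hx => ?_⟩
      · rw [card_insert_of_notMem fun q => (h2 _ q).2 (half m).1]
        have := Nat.odd_iff.1 o; omega
      · rcases mem_insert.1 hx with rfl | q
        · simp [(half m).1]
        · exact mem_insert_of_mem (h2 x q).1
  obtain ⟨G, e, hG⟩ := tr (ZMod.card n) ⟨fun i j => j - i ∈ S, ⟨fun i j h => by simpa using h3 _ h⟩,
    ⟨fun i h => h2 (by simpa using h)⟩⟩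
  refine ⟨G, fun v => ?_⟩
  rw [hG, ← h1, ← Set.ncard_coe_finset]
  exact Set.ncard_preimage_of_injective_subset_range (f := fun j => j - e v) sub_left_injective
    (s := ↑S) fun x _ => ⟨x + e v, by simp⟩

theorem ex2 (n r s : ℕ) (hn : Odd n) (h : r < n) (h' : s < n) (hr : Odd r) (hs : Even s) :
    ∃ G : SimpleGraph (Fin n), ∃ v, deg G v = s ∧ ∀ u, u ≠ v → deg G u = r := by
  obtain ⟨m, rfl⟩ := hn
  obtain ⟨a, rfl⟩ := hr
  obtain ⟨t, rfl⟩ := hs.two_dvd
  have : NeZero m := ⟨by omega⟩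
  obtain ⟨m1, m2⟩ := half m
  have m3 : ∀ x : ZMod (2 * m), x + m + m = x := fun x => by
    rw [add_assoc, add_eq_zero_iff_neg_eq.2 m1, add_zero]
  obtain ⟨S, h1, h2⟩ := negS (2 * m) a (by omega)
  obtain ⟨T, h3, h4⟩ := inv (fun x : ZMod (2 * m) => x + m) m3 t (by simp [m2]; omega)
  let H : SimpleGraph (Option (ZMod (2 * m))) := ⟨fun x y => match x, y with
    | some i, some j => j - i ∈ S ∨ (j = i + m ∧ i ∉ T)
    | some i, none => i ∈ T
    | none, some j => j ∈ T
    | none, none => False, ⟨by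
      rintro (_ | i) (_ | j) h <;> try exact h
      rcases h with h | ⟨rfl, h⟩
      · exact Or.inl (by simpa using (h2 _ h).1)
      · exact Or.inr ⟨(m3 i).symm, fun z => h (m3 i ▸ (h4 _ z).1)⟩⟩, ⟨by
      rintro (_ | i) h
      · exact h
      · rcases h with h | ⟨h, -⟩
        · exact (h2 _ h).2 (by simp)
        · exact m2 (by simpa using h)⟩⟩
  obtain ⟨G, e, hG⟩ := tr (n := 2 * m + 1) (by simp) H
  refine ⟨G, e.symm none, ?_, fun u hu => ?_⟩
  · rw [hG, e.apply_symm_apply, ← h3, ← card_image_of_injective T (Option.some_injective _),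
      ← Set.ncard_coe_finset, deg]
    congr 1
    ext (_ | j) <;> simp [H]
  · obtain ⟨i, hi⟩ := Option.ne_none_iff_exists'.1 fun z => hu (e.eq_symm_apply.2 z)
    have : H.neighborSet (some i) =
        ↑(insert (if i ∈ T then none else some (i + m)) (S.image fun x => some (x + i))) := by
      ext (_ | j) <;> by_cases c : i ∈ T <;> simp [H, c, ← eq_sub_iff_add_eq, or_comm]
    rw [hG, hi, deg, this, Set.ncard_coe_finset, card_insert_of_notMem,
      card_image_of_injective _ fun x y z => by simpa using z, h1]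
    split_ifs
    · simp
    · simpa [add_comm i] using fun z => (h2 _ z).2 m1

theorem expo {n : ℕ} (A : Set (Fin n → ℝ)) (p : Fin n → ℝ) (hp : p ∈ A) (f : (Fin n → ℝ) →ₗ[ℝ] ℝ)
    (h : ∀ a ∈ A, f a < f p ∨ a = p) : p ∈ (convexHull ℝ A).extremePoints ℝ := by
  have k : ∀ x y : Fin n → ℝ, ∀ a b : ℝ, 0 < a → 0 < b → a + b = 1 → (f x < f p ∨ x = p) →
      (f y < f p ∨ y = p) → f (a • x + b • y) < f p ∨ (x = p ∧ y = p) := by
    intro x y a b ha hb hab hx hy
    have c3 : f p = a * f p + b * f p := by rw [← add_mul, hab, one_mul]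
    simp only [map_add, map_smul, smul_eq_mul]
    rcases hx with z | z <;> rcases hy with z' | z'
    · left; nlinarith
    · left; rw [z']; nlinarith
    · left; rw [z]; nlinarith
    · exact Or.inr ⟨z, z'⟩
  have a : convexHull ℝ A ⊆ {x | f x < f p ∨ x = p} :=
    convexHull_min h (convex_iff_forall_pos.2 fun x hx y hy a b ha hb hab =>
      (k x y a b ha hb hab hx hy).imp_right fun z => by rw [z.1, z.2, ← add_smul, hab, one_smul])
  refine mem_extremePoints.2 ⟨subset_convexHull ℝ _ hp, fun x hx y hy ⟨s, t, hs, ht, e, e'⟩ => ?_⟩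
  exact (k x y s t hs ht e (a hx) (a hy)).resolve_left (by rw [e']; exact lt_irrefl _)

theorem dsum {n : ℕ} (G : SimpleGraph (Fin n)) : dstar G = ∑ v, ones n (deg G v) := by
  ext k; simp [dstar, ones, Finset.sum_apply]

theorem dlt {n : ℕ} (G : SimpleGraph (Fin n)) (v : Fin n) : deg G v < n := by
  have := Set.ncard_lt_ncard (s := G.neighborSet v) (t := Set.univ)
    ⟨Set.subset_univ _, fun z => G.irrefl (z (Set.mem_univ v))⟩
  simpa [Set.ncard_univ, deg] using this

theorem hand {n : ℕ} (G : SimpleGraph (Fin n)) : Even #{v | Odd (deg G v)} := by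
  classical
  convert G.even_card_odd_degree_vertices
  rw [deg, ← G.card_neighborFinset_eq_degree, ← Set.ncard_coe_finset, G.coe_neighborFinset]

theorem func (n r : ℕ) : ∃ f : (Fin n → ℝ) →ₗ[ℝ] ℝ, ∃ c : ℝ, (∀ t < n, f (ones n t) = (if t = r then 1 else 0) - c) ∧
    ∀ G, f (dstar G) = #{v | deg G v = r} - n * c := by
  obtain ⟨φ, hφ⟩ : ∃ φ : ℕ → ℝ, ∀ t, φ t = if t = r then 1 else 0 := ⟨_, fun _ => rfl⟩
  obtain ⟨f, hf⟩ : ∃ f : (Fin n → ℝ) →ₗ[ℝ] ℝ, ∀ x, f x = ∑ k : Fin n, (φ (k + 1) - φ k) * x k :=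
    ⟨∑ k : Fin n, (φ (k + 1) - φ k) • LinearMap.proj k, by simp⟩
  have a : ∀ t < n, f (ones n t) = φ t - φ 0 := fun t ht => by
    rw [hf, ← sum_range_sub]
    simp only [ones]
    rw [Fin.sum_univ_eq_sum_range (fun k => (φ (k + 1) - φ k) * if k + 1 ≤ t then 1 else 0)]
    simp only [mul_ite, mul_one, mul_zero, ← sum_filter]
    congr 1; ext k; simp; omega
  refine ⟨f, φ 0, fun t ht => by rw [a t ht, hφ], fun G => ?_⟩
  rw [dsum, map_sum, sum_congr rfl fun v _ => a _ (dlt G v)]
  simp only [sum_sub_distrib, hφ (deg G _)]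
  simp

theorem regEq {n r : ℕ} (G : SimpleGraph (Fin n)) (h : ∀ v, deg G v = r) :
    dstar G = (n : ℝ) • ones n r := by
  simp [dsum, h, ← Nat.cast_smul_eq_nsmul ℝ]

theorem nearEq {n r : ℕ} (G : SimpleGraph (Fin n)) (v : Fin n) (h : ∀ u, u ≠ v → deg G u = r) :
    dstar G = (n - 1 : ℝ) • ones n r + ones n (deg G v) := by
  rw [dsum, ← add_sum_erase _ _ (mem_univ v), sum_congr rfl fun u hu => by rw [h u (ne_of_mem_erase hu)]]
  simp [← Nat.cast_smul_eq_nsmul ℝ, Nat.cast_pred v.pos, add_comm]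

theorem nearEven {n r : ℕ} (G : SimpleGraph (Fin n)) (v : Fin n) (hn : Odd n) (hr : Odd r)
    (h : ∀ u, u ≠ v → deg G u = r) : Even (deg G v) := by
  by_contra z
  have := hand G
  rw [filter_true_of_mem fun u _ => by
    by_cases e : u = v
    · exact e ▸ Nat.not_even_iff_odd.1 z
    · rwa [h u e]] at this
  exact Nat.not_even_iff_odd.2 hn (by simpa using this)

theorem isExt {n : ℕ} (hn : 1 ≤ n) (G : SimpleGraph (Fin n)) (h : (∃ r, ∀ v, deg G v = r) ∨
    (Odd n ∧ ∃ v r, Odd r ∧ ∀ u, u ≠ v → deg G u = r)) :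
    dstar G ∈ (convexHull ℝ (Set.range (@dstar n))).extremePoints ℝ := by
  rcases h with ⟨r, h⟩ | ⟨o, v, r, hr, h⟩
  · obtain ⟨f, c, -, hf⟩ := func n r
    refine expo _ _ ⟨G, rfl⟩ f ?_
    rintro _ ⟨H, rfl⟩
    rw [hf, hf, filter_true_of_mem (s := univ) fun v _ => h v]
    refine (card_le_univ {v | deg H v = r}).lt_or_eq.imp (fun z => ?_) fun z => ?_
    · simpa using z
    · rw [regEq G h, regEq H fun v => by simpa using eq_univ_iff_forall.1 (eq_univ_of_card _ z) v]
  · have ev := nearEven G v o hr h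
    have ne : deg G v ≠ r := fun z => Nat.not_even_iff_odd.2 hr (z ▸ ev)
    obtain ⟨f, c, -, hf⟩ := func n r
    obtain ⟨f', c', -, hf'⟩ := func n (deg G v)
    refine expo _ _ ⟨G, rfl⟩ (f + f + f') ?_
    rintro _ ⟨H, rfl⟩
    have g1 : #{u | deg G u = r} + 1 = n := by
      rw [show ({u | deg G u = r} : Finset _) = univ.erase v by
        ext u; simpa using ⟨fun z e => ne (e ▸ z), h u⟩, card_erase_add_one (mem_univ v)]
      simp
    have g2 : 0 < #{u | deg G u = deg G v} := card_pos.2 ⟨v, by simp⟩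
    have k1 : #{u | deg H u = r} ≤ #{u | Odd (deg H u)} :=
      card_le_card fun u hu => by simp [(mem_filter.1 hu).2, hr]
    have k2 := card_le_univ ({u | Odd (deg H u)} : Finset (Fin n))
    have k3 := Nat.even_iff.1 (hand H)
    have k4 := Nat.odd_iff.1 o
    have k5 := card_union_of_disjoint (s := ({u | deg H u = r} : Finset (Fin n)))
      (t := {u | deg H u = deg G v}) (disjoint_filter.2 fun u _ a b => ne (b ▸ a))
    have k6 := card_le_univ (({u | deg H u = r} : Finset (Fin n)) ∪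
      ({u | deg H u = deg G v} : Finset (Fin n)))
    rw [Fintype.card_fin] at k2 k6
    by_cases c : 2 * #{u | deg H u = r} + #{u | deg H u = deg G v} <
        2 * #{u | deg G u = r} + #{u | deg G u = deg G v}
    · left
      simp only [LinearMap.add_apply, hf, hf']
      have := (Nat.cast_lt (α := ℝ)).2 c
      push_cast at this
      linarith
    · right
      obtain ⟨w, hw⟩ := card_eq_one.1 (show #{u | deg H u = deg G v} = 1 by omega)
      have w1 : deg H w = deg G v := by simpa using hw.ge (mem_singleton_self w)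
      rw [nearEq G v h, nearEq (r := r) H w fun u hu => ?_, w1]
      have := eq_univ_iff_forall.1 (eq_univ_of_card _ (show #(({u | deg H u = r} : Finset (Fin n)) ∪
        ({u | deg H u = deg G v} : Finset (Fin n))) = _ by rw [Fintype.card_fin]; omega)) u
      rw [hw] at this
      simpa [hu] using this

theorem result (n : ℕ) (hn : 1 ≤ n) :
    (convexHull ℝ (Set.range (@dstar n))).extremePoints ℝ =
      {x | (∃ r < n, Even (n * r) ∧ x = (n : ℝ) • ones n r) ∨ (Odd n ∧ ∃ r < n, ∃ s < n,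
        Odd r ∧ Even s ∧ x = (n - 1 : ℝ) • ones n r + ones n s)} ∧
    ∀ G : SimpleGraph (Fin n), dstar G ∈ (convexHull ℝ (Set.range (@dstar n))).extremePoints ℝ ↔
      (∃ r, ∀ v, deg G v = r) ∨ (Odd n ∧ ∃ v r, Odd r ∧ ∀ u, u ≠ v → deg G u = r) := by
  obtain ⟨S, hS⟩ : ∃ S, S = {x | (∃ r < n, Even (n * r) ∧ x = (n : ℝ) • ones n r) ∨ (Odd n ∧ ∃ r < n,
    ∃ s < n, Odd r ∧ Even s ∧ x = (n - 1 : ℝ) • ones n r + ones n s)} := ⟨_, rfl⟩
  have n0 : (0 : ℝ) < n := by exact_mod_cast hn
  have B : S ⊆ (convexHull ℝ (Set.range (@dstar n))).extremePoints ℝ := by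
    rw [hS]
    rintro x (⟨r, a, b, rfl⟩ | ⟨o, r, a, s, b, c, d, rfl⟩)
    · obtain ⟨G, hG⟩ := ex1 n r a b
      exact regEq G hG ▸ isExt hn G (Or.inl ⟨r, hG⟩)
    · obtain ⟨G, v, h1, h2⟩ := ex2 n r s o a b c d
      exact h1 ▸ nearEq G v h2 ▸ isExt hn G (Or.inr ⟨o, v, r, c, h2⟩)
  have cv := convex_convexHull ℝ S
  have r1 : ∀ r < n, Even (n * r) → (n : ℝ) • ones n r ∈ convexHull ℝ S := fun r a b =>
    subset_convexHull ℝ _ (hS ▸ Or.inl ⟨r, a, b, rfl⟩)
  have C : Set.range (@dstar n) ⊆ convexHull ℝ S := by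
    rintro _ ⟨G, rfl⟩
    rcases Nat.even_or_odd n with o | o
    · convert cv.sum_mem (t := univ) (w := fun _ => (n : ℝ)⁻¹) (fun _ _ => by positivity)
        (by simp [n0.ne']) fun v _ => r1 _ (dlt G v) (o.mul_right _)
      simp [dsum, smul_smul, n0.ne']
    · obtain ⟨v, hv⟩ : ∃ v, Even (deg G v) := by
        by_contra z
        have := hand G
        rw [filter_true_of_mem fun u _ => Nat.not_even_iff_odd.1 fun e => z ⟨u, e⟩] at this
        exact Nat.not_even_iff_odd.2 o (by simpa using this)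
      rcases hn.eq_or_lt with rfl | h1
      · exact regEq G (fun u => congrArg _ (Subsingleton.elim u v)) ▸ r1 _ (dlt G v) (hv.mul_left _)
      have n1 : (0 : ℝ) < n - 1 := by have := (Nat.one_lt_cast (α := ℝ)).2 h1; linarith
      have ce : (#(univ.erase v) : ℝ) = n - 1 := by simp [Nat.cast_pred v.pos]
      convert cv.sum_mem (t := univ.erase v) (w := fun _ => (n - 1 : ℝ)⁻¹) (fun _ _ => by positivity)
        (by rw [sum_const, nsmul_eq_mul, ce, mul_inv_cancel₀ n1.ne'])
        (z := fun u => (n - 1 : ℝ) • ones n (deg G u) + ones n (deg G v)) fun u _ => ?_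
      · simp only [smul_add, smul_smul, inv_mul_cancel₀ n1.ne', one_smul, sum_add_distrib, sum_const,
          ← Nat.cast_smul_eq_nsmul ℝ, ce, mul_inv_cancel₀ n1.ne']
        rw [dsum, sum_erase_add _ _ (mem_univ v)]
      · rcases Nat.even_or_odd (deg G u) with e | e
        · convert cv (r1 _ (dlt G u) (e.mul_left _)) (r1 _ (dlt G v) (hv.mul_left _))
            (a := (n - 1) / n) (b := 1 / n) (by positivity) (by positivity) (by field_simp; ring) using 2 <;>
          simp [smul_smul, n0.ne']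
        · exact subset_convexHull ℝ _ (hS ▸ Or.inr ⟨o, _, dlt G u, _, dlt G v, e, hv, rfl⟩)
  have D : (convexHull ℝ (Set.range (@dstar n))).extremePoints ℝ = S := by
    refine B.antisymm' ?_
    rw [(convexHull_min C cv).antisymm
      (convexHull_min (B.trans extremePoints_subset) (convex_convexHull ℝ _))]
    exact extremePoints_convexHull_subset
  refine ⟨hS ▸ D, fun G => ⟨fun h => ?_, isExt hn G⟩⟩
  rw [D, hS] at h
  rcases h with ⟨r, a, b, e⟩ | ⟨o, r, a, s, b, c, d, e⟩ <;> obtain ⟨f, k, f1, f2⟩ := func n r <;>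
    have := f2 G
  · rw [e, map_smul, f1 r a, if_pos rfl, smul_eq_mul] at this
    have z : #{v | deg G v = r} = Fintype.card (Fin n) := by
      rw [Fintype.card_fin]; exact Nat.cast_injective (R := ℝ) (by linarith)
    exact Or.inl ⟨r, fun v => by simpa using eq_univ_iff_forall.1 (eq_univ_of_card _ z) v⟩
  · rw [e, map_add, map_smul, f1 r a, f1 s b, if_pos rfl, smul_eq_mul,
      if_neg fun z : s = r => Nat.not_even_iff_odd.2 c (z ▸ d)] at this
    have z : #{v | deg G v = r} + 1 = n := Nat.cast_injective (R := ℝ) (by push_cast; linarith)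
    have y := card_filter_add_card_filter_not (s := univ) fun v => deg G v = r
    rw [card_univ, Fintype.card_fin] at y
    obtain ⟨v, hv⟩ := card_eq_one.1 (show #{v | ¬ deg G v = r} = 1 by omega)
    refine Or.inr ⟨o, v, r, c, fun u hu => not_not.1 fun q => hu (mem_singleton.1 ?_)⟩
    rw [← hv]; simpa using q

end Pool.Agent.Results.MP_1867d3_co.Extreme
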